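import Mathlib

/-!
Cuts and images of words, indexed by the integers (words are continued by an extra letter on both sides).
-/

set_option autoImplicit false

namespace Pool.H20D

variable {Γ A : Type}

/-- the position at which the image of the `l`-th letter starts -/
def cut (f : Γ → List A) (x : List Γ) (l : ℤ) : ℤ :=
  (((x.take l.toNat).flatMap f).length : ℤ) + min l 0 + max (l - x.length) 0

/-- the letter of the image at position `K` -/
def im (f : Γ → List A) (x : List Γ) (K : ℤ) : Option A :=
  if K < 0 then none else (x.flatMap f)[K.toNat]?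

/-- the letter of the word at position `l` -/
def lt (x : List Γ) (l : ℤ) : Option Γ :=
  if l < 0 then none else x[l.toNat]?

def len1 (f : Γ → List A) (o : Option Γ) : ℤ := o.elim 1 (fun a => ((f a).length : ℤ))

def im1 (f : Γ → List A) (o : Option Γ) (k : ℤ) : Option A := o.elim none (fun a => (f a)[k.toNat]?)

theorem len1_nonneg (f : Γ → List A) (o : Option Γ) : 0 ≤ len1 f o := by
  cases o <;> simp [len1]

theorem lt_neg (x : List Γ) {l : ℤ} (h : l < 0) : lt x l = none := by simp [lt, h]

theorem lt_ge (x : List Γ) {l : ℤ} (h : (x.length : ℤ) ≤ l) : lt x l = none := by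
  have : ¬ l < 0 := by omega
  simp only [lt, this, if_false]
  rw [List.getElem?_eq_none]
  omega

theorem lt_mid (x : List Γ) (n : ℕ) (h : n < x.length) : lt x n = some x[n] := by
  have : ¬ ((n : ℤ) < 0) := by omega
  simp [lt, h]

theorem lt_none_iff (x : List Γ) (l : ℤ) : lt x l = none ↔ l < 0 ∨ (x.length : ℤ) ≤ l := by
  constructor
  · intro h
    by_contra hc
    push Not at hc
    obtain ⟨n, rfl⟩ := Int.eq_ofNat_of_zero_le hc.1
    rw [lt_mid x n (by omega)] at h
    exact absurd h (by simp)
  · rintro (h | h)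
    · exact lt_neg x h
    · exact lt_ge x h

theorem cut_neg (f : Γ → List A) (x : List Γ) {l : ℤ} (h : l ≤ 0) : cut f x l = l := by
  have h1 : l.toNat = 0 := by omega
  simp only [cut, h1, List.take_zero, List.flatMap_nil, List.length_nil]
  omega

theorem cut_ge (f : Γ → List A) (x : List Γ) {l : ℤ} (h : (x.length : ℤ) ≤ l) :
    cut f x l = (x.flatMap f).length + (l - x.length) := by
  have h1 : x.take l.toNat = x := List.take_of_length_le (by omega)
  simp only [cut, h1]
  omega

theorem cut_mid (f : Γ → List A) (x : List Γ) (n : ℕ) (h : n ≤ x.length) :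
    cut f x n = ((x.take n).flatMap f).length := by
  simp only [cut, Int.toNat_natCast]
  omega

theorem cut_succ (f : Γ → List A) (x : List Γ) (l : ℤ) : cut f x (l + 1) = cut f x l + len1 f (lt x l) := by
  rcases lt_or_ge l 0 with h | h
  · rw [cut_neg f x (by omega), cut_neg f x (by omega), lt_neg x h]
    simp [len1]
  · rcases lt_or_ge l (x.length : ℤ) with h2 | h2
    · obtain ⟨n, rfl⟩ := Int.eq_ofNat_of_zero_le h
      have hn : n < x.length := by omega
      have h3 : ((n : ℤ) + 1) = ((n + 1 : ℕ) : ℤ) := by push_cast; ring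
      rw [h3, cut_mid f x (n + 1) (by omega), cut_mid f x n (by omega), lt_mid x n hn,
        List.take_succ_eq_append_getElem hn, List.flatMap_append]
      simp [len1]
    · rw [cut_ge f x (by omega), cut_ge f x h2, lt_ge x h2]
      simp only [len1, Option.elim]
      ring

theorem cut_le_succ (f : Γ → List A) (x : List Γ) (l : ℤ) : cut f x l ≤ cut f x (l + 1) := by
  rw [cut_succ]
  have := len1_nonneg f (lt x l)
  omega

theorem cut_mono (f : Γ → List A) (x : List Γ) {a b : ℤ} (h : a ≤ b) : cut f x a ≤ cut f x b := by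
  obtain ⟨n, hn⟩ := Int.eq_ofNat_of_zero_le (show 0 ≤ b - a by omega)
  obtain rfl : b = a + n := by omega
  clear h hn
  induction n with
  | zero => simp
  | succ n ih =>
    refine ih.trans ?_
    have := cut_le_succ f x (a + n)
    push_cast
    rwa [← add_assoc]

theorem im_cut (f : Γ → List A) (x : List Γ) (l k : ℤ) (hk : 0 ≤ k) (hk2 : k < len1 f (lt x l)) :
    im f x (cut f x l + k) = im1 f (lt x l) k := by
  rcases lt_or_ge l 0 with h | h
  · rw [cut_neg f x (by omega), lt_neg x h]
    rw [lt_neg x h] at hk2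
    simp only [len1, Option.elim] at hk2
    have : l + k < 0 := by omega
    simp [im, this, im1]
  · rcases lt_or_ge l (x.length : ℤ) with h2 | h2
    · obtain ⟨n, rfl⟩ := Int.eq_ofNat_of_zero_le h
      have hn : n < x.length := by omega
      rw [lt_mid x n hn] at hk2 ⊢
      rw [cut_mid f x n (by omega)]
      obtain ⟨k, rfl⟩ := Int.eq_ofNat_of_zero_le hk
      simp only [len1, Option.elim] at hk2
      have hk3 : k < (f x[n]).length := by exact_mod_cast hk2
      have h5 : ¬ ((((x.take n).flatMap f).length : ℤ) + (k : ℤ) < 0) := by omega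
      have h6 : ((((x.take n).flatMap f).length : ℤ) + (k : ℤ)).toNat = ((x.take n).flatMap f).length + k := by
        omega
      simp only [im, im1, h5, if_false, h6, Option.elim, Int.toNat_natCast]
      have h7 : x.flatMap f = (x.take n).flatMap f ++ (f x[n] ++ (x.drop (n + 1)).flatMap f) := by
        have h8 : x = x.take n ++ (x[n] :: x.drop (n + 1)) := by
          rw [← List.drop_eq_getElem_cons hn, List.take_append_drop]
        conv_lhs => rw [h8]
        rw [List.flatMap_append, List.flatMap_cons]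
      rw [h7, List.getElem?_append_right (by omega), Nat.add_sub_cancel_left,
        List.getElem?_append_left hk3]
    · rw [cut_ge f x h2, lt_ge x h2]
      have h5 : ¬ (((x.flatMap f).length : ℤ) + (l - x.length) + k < 0) := by omega
      simp only [im, im1, h5, if_false, Option.elim]
      rw [List.getElem?_eq_none]
      omega

/-- every integer between two cuts lies in the image of a letter -/
theorem cover (H : ℤ → ℤ) (K : ℤ) (n : ℕ) : ∀ a : ℤ, H a ≤ K → K < H (a + n) →
    ∃ m, a ≤ m ∧ m < a + n ∧ H m ≤ K ∧ K < H (m + 1) := by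
  induction n with
  | zero => intro a h1 h2; simp at h2; omega
  | succ n ih =>
    intro a h1 h2
    by_cases h3 : K < H (a + 1)
    · exact ⟨a, le_rfl, by push_cast; omega, h1, h3⟩
    · push Not at h3
      obtain ⟨m, h4, h5, h6, h7⟩ := ih (a + 1) h3 (by
        have : a + 1 + (n : ℤ) = a + ((n + 1 : ℕ) : ℤ) := by push_cast; ring
        rwa [this])
      exact ⟨m, by omega, by push_cast; omega, h6, h7⟩

theorem cover' (f : Γ → List A) (x : List Γ) {a b K : ℤ} (hab : a ≤ b) (h1 : cut f x a ≤ K)
    (h2 : K < cut f x b) : ∃ m, a ≤ m ∧ m < b ∧ cut f x m ≤ K ∧ K < cut f x (m + 1) := by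
  obtain ⟨n, hn⟩ := Int.eq_ofNat_of_zero_le (show 0 ≤ b - a by omega)
  obtain rfl : b = a + n := by omega
  exact cover _ K n a h1 h2

/-- the windows `[a + lo, a + hi)` of `x` and `[b + lo, b + hi)` of `y` coincide -/
def Same (x : List Γ) (a : ℤ) (y : List Γ) (b : ℤ) (lo hi : ℤ) : Prop :=
  ∀ m : ℤ, lo ≤ m → m < hi → lt x (a + m) = lt y (b + m)

theorem Same.symm {x y : List Γ} {a b lo hi : ℤ} (h : Same x a y b lo hi) : Same y b x a lo hi :=
  fun m h1 h2 => (h m h1 h2).symm

theorem Same.mono {x y : List Γ} {a b lo hi lo' hi' : ℤ} (h : Same x a y b lo hi) (h1 : lo ≤ lo')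
    (h2 : hi' ≤ hi) : Same x a y b lo' hi' :=
  fun m h3 h4 => h m (by omega) (by omega)

theorem Same.shift {x y : List Γ} {a b lo hi : ℤ} (h : Same x a y b lo hi) (c : ℤ) :
    Same x (a + c) y (b + c) (lo - c) (hi - c) := by
  intro m h1 h2
  have := h (c + m) (by omega) (by omega)
  rwa [← add_assoc, ← add_assoc] at this

theorem Same.cut_nat {x y : List Γ} {a b lo hi : ℤ} (h : Same x a y b lo hi) (f : Γ → List A) (n : ℕ) :
    ∀ m : ℤ, lo ≤ m → m + n ≤ hi →
      cut f x (a + (m + n)) - cut f x (a + m) = cut f y (b + (m + n)) - cut f y (b + m) := by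
  induction n with
  | zero => intro m _ _; simp
  | succ n ih =>
    intro m h1 h2
    push_cast at h2
    have h3 := ih m h1 (by omega)
    have h4 := h (m + n) (by omega) (by omega)
    have h5 := cut_succ f x (a + (m + n))
    have h6 := cut_succ f y (b + (m + n))
    rw [h4] at h5
    have e1 : a + (m + ((n + 1 : ℕ) : ℤ)) = a + (m + n) + 1 := by push_cast; ring
    have e2 : b + (m + ((n + 1 : ℕ) : ℤ)) = b + (m + n) + 1 := by push_cast; ring
    rw [e1, e2, h5, h6]
    omega

theorem Same.cut {x y : List Γ} {a b lo hi : ℤ} (h : Same x a y b lo hi) (f : Γ → List A) {m m' : ℤ}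
    (h1 : lo ≤ m) (h2 : m ≤ m') (h3 : m' ≤ hi) :
    Pool.H20D.cut f x (a + m') - Pool.H20D.cut f x (a + m)
      = Pool.H20D.cut f y (b + m') - Pool.H20D.cut f y (b + m) := by
  obtain ⟨n, hn⟩ := Int.eq_ofNat_of_zero_le (show 0 ≤ m' - m by omega)
  obtain rfl : m' = m + n := by omega
  exact h.cut_nat f n m h1 h3

theorem Same.im {x y : List Γ} {a b lo hi : ℤ} (h : Same x a y b lo hi) (f : Γ → List A) (h0 : lo ≤ 0)
    (h0' : 0 ≤ hi) {K : ℤ} (h1 : Pool.H20D.cut f x (a + lo) ≤ K) (h2 : K < Pool.H20D.cut f x (a + hi)) :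
    Pool.H20D.im f x K = Pool.H20D.im f y (K - Pool.H20D.cut f x a + Pool.H20D.cut f y b) := by
  obtain ⟨m, h3, h4, h5, h6⟩ := cover' f x (by omega) h1 h2
  obtain ⟨m, rfl⟩ : ∃ m', m = a + m' := ⟨m - a, by omega⟩
  have h7 := h m (by omega) (by omega)
  have h8 : Pool.H20D.cut f x (a + m) - Pool.H20D.cut f x a
      = Pool.H20D.cut f y (b + m) - Pool.H20D.cut f y b := by
    have e1 := h.cut f (m := lo) (m' := m) le_rfl (by omega) (by omega)
    have e2 := h.cut f (m := lo) (m' := 0) le_rfl (by omega) (by omega)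
    simp only [add_zero] at e2
    omega
  have h9 := cut_succ f x (a + m)
  have h10 := im_cut f x (a + m) (K - Pool.H20D.cut f x (a + m)) (by omega) (by omega)
  have h11 := im_cut f y (b + m) (K - Pool.H20D.cut f x (a + m)) (by omega) (by rw [← h7]; omega)
  rw [← h7, ← h10] at h11
  have e3 : Pool.H20D.cut f x (a + m) + (K - Pool.H20D.cut f x (a + m)) = K := by ring
  have e4 : Pool.H20D.cut f y (b + m) + (K - Pool.H20D.cut f x (a + m))
      = K - Pool.H20D.cut f x a + Pool.H20D.cut f y b := by omega
  rw [e3, e4] at h11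
  exact h11.symm

/-- `u` has period `d` on the interval `[lo, hi)` -/
def Per (u : ℤ → Option A) (lo hi d : ℤ) : Prop :=
  ∀ K, lo ≤ K → K < hi → lo ≤ K + d → K + d < hi → u K = u (K + d)

theorem Per.zero (u : ℤ → Option A) (lo hi : ℤ) : Per u lo hi 0 := fun K _ _ _ _ => by simp

theorem Per.neg {u : ℤ → Option A} {lo hi d : ℤ} (h : Per u lo hi d) : Per u lo hi (-d) := by
  intro K h1 h2 h3 h4
  have := h (K + -d) h3 h4 (by omega) (by omega)
  rw [this]
  congr 1
  ring

theorem Per.add {u : ℤ → Option A} {lo hi d e : ℤ} (h : Per u lo hi d) (h' : Per u lo hi e)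
    (hl : |d| + |e| ≤ hi - lo) : Per u lo hi (d + e) := by
  intro K h1 h2 h3 h4
  by_cases h5 : lo ≤ K + d ∧ K + d < hi
  · rw [h K h1 h2 h5.1 h5.2, h' (K + d) h5.1 h5.2 (by omega) (by omega)]
    congr 1
    ring
  · have h6 : lo ≤ K + e ∧ K + e < hi := by
      rcases abs_cases d with hd | hd <;> rcases abs_cases e with he | he <;> omega
    rw [h' K h1 h2 h6.1 h6.2, h (K + e) h6.1 h6.2 (by omega) (by omega)]
    congr 1
    ring

theorem Per.mul_nat {u : ℤ → Option A} {lo hi d : ℤ} (h : Per u lo hi d) (n : ℕ) :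
    Per u lo hi (n * d) := by
  induction n with
  | zero => simpa using Per.zero u lo hi
  | succ n ih =>
    intro K h1 h2 h3 h4
    push_cast at h3 h4 ⊢
    have e : ((n : ℤ) + 1) * d = n * d + d := by ring
    rw [e] at h3 h4 ⊢
    have h5 : lo ≤ K + n * d ∧ K + n * d < hi := by
      rcases le_or_gt 0 d with hd | hd
      · have : 0 ≤ (n : ℤ) * d := mul_nonneg (by omega) hd
        omega
      · have : (n : ℤ) * d ≤ 0 := mul_nonpos_of_nonneg_of_nonpos (by omega) hd.le
        omega
    rw [ih K h1 h2 h5.1 h5.2, h (K + n * d) h5.1 h5.2 (by omega) (by omega)]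
    congr 1
    ring

theorem Per.mul {u : ℤ → Option A} {lo hi d : ℤ} (h : Per u lo hi d) (n : ℤ) : Per u lo hi (n * d) := by
  rcases le_or_gt 0 n with hn | hn
  · obtain ⟨n, rfl⟩ := Int.eq_ofNat_of_zero_le hn
    exact h.mul_nat n
  · obtain ⟨k, hk⟩ := Int.eq_ofNat_of_zero_le (show 0 ≤ -n by omega)
    obtain rfl : n = -k := by omega
    have := (h.mul_nat k).neg
    simpa using this

/-- a period `e` of a long piece of a word with a nonzero period `d` is a period of the word -/
theorem Per.extend {u : ℤ → Option A} {lo hi d lo' hi' e : ℤ} (h : Per u lo hi d) (hd : d ≠ 0)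
    (h' : Per u lo' hi' e) (h1 : lo ≤ lo') (h2 : hi' ≤ hi) (h3 : |d| + |e| ≤ hi' - lo') :
    Per u lo hi e := by
  intro K k1 k2 k3 k4
  have hd' : 0 < |d| := abs_pos.2 hd
  -- shift K by a multiple of d
  set base : ℤ := lo' + max (-e) 0 with hbase
  obtain ⟨n, hn1, hn2⟩ : ∃ n : ℤ, base ≤ K + n * d ∧ K + n * d < base + |d| := by
    have e1 := Int.emod_add_mul_ediv (K - base) d
    have e2 := Int.emod_nonneg (K - base) hd
    have e3 := Int.emod_lt_abs (K - base) hd
    refine ⟨-((K - base) / d), ?_, ?_⟩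
    · have : -((K - base) / d) * d = -(d * ((K - base) / d)) := by ring
      rw [this]
      omega
    · have : -((K - base) / d) * d = -(d * ((K - base) / d)) := by ring
      rw [this]
      omega
  have hm := h.mul n
  have a1 : lo' ≤ K + n * d := by omega
  have a2 : K + n * d < hi' := by
    rcases abs_cases e with he | he <;> omega
  have a3 : lo' ≤ K + n * d + e := by
    omega
  have a4 : K + n * d + e < hi' := by
    rcases abs_cases e with he | he <;> omega
  rw [hm K k1 k2 (by omega) (by omega), h' (K + n * d) a1 a2 a3 a4,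
    hm (K + e) k3 k4 (by omega) (by omega)]
  congr 1
  ring

end Pool.H20D
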