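import Pool.Agent.H.h20D.Loc

/-!
The chain bound for pairs of morphisms of bounded delay.
-/

set_option autoImplicit false

namespace Pool.H20D

variable {Γ A : Type}

/-- `g` and `h` have delay at most `q` on `x`: the image under one of them of every prefix of `x` is not longer
than the image under the other one of the prefix with `q` more letters. -/
def Delay (q : ℕ) (g h : Γ → List A) (x : List Γ) : Prop :=
  ∀ l : ℕ, l + q ≤ x.length →
    ((x.take l).flatMap g).length ≤ ((x.take (l + q)).flatMap h).length ∧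
    ((x.take l).flatMap h).length ≤ ((x.take (l + q)).flatMap g).length

theorem dc_of_delay {q : ℕ} {g h : Γ → List A} {x : List Γ} (hd : Delay q g h x)
    (hl : (x.flatMap g).length = (x.flatMap h).length) : DC q g h x := by
  intro l
  rcases le_or_gt l 0 with h0 | h0
  · have m1 := cut_mono h x (show l ≤ l + q by omega)
    rw [cut_neg h x h0] at m1
    rw [cut_neg h x (show l - q ≤ 0 by omega), cut_neg g x h0]
    constructor <;> omega
  · constructor
    · rcases le_or_gt (l - q) 0 with h1 | h1
      · rw [cut_neg h x h1]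
        have := cut_mono g x h0.le
        rw [cut_neg g x le_rfl] at this
        omega
      · rcases le_or_gt l (x.length : ℤ) with h2 | h2
        · obtain ⟨n, hn⟩ := Int.eq_ofNat_of_zero_le h1.le
          have e : l = ((n + q : ℕ) : ℤ) := by push_cast; omega
          rw [hn, e, cut_mid h x n (by omega), cut_mid g x (n + q) (by omega)]
          exact_mod_cast (hd n (by omega)).2
        · have := cut_mono h x (show l - q ≤ l by omega)
          rw [cut_ge h x h2.le] at this
          rw [cut_ge g x h2.le]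
          omega
    · obtain ⟨n, rfl⟩ := Int.eq_ofNat_of_zero_le h0.le
      rcases le_or_gt ((n : ℤ) + q) (x.length : ℤ) with h2 | h2
      · have e : (n : ℤ) + q = ((n + q : ℕ) : ℤ) := by push_cast; omega
        rw [e, cut_mid g x n (by omega), cut_mid h x (n + q) (by omega)]
        exact_mod_cast (hd n (by omega)).1
      · rw [cut_ge h x h2.le]
        rcases le_or_gt (n : ℤ) (x.length : ℤ) with h3 | h3
        · have := cut_mono g x h3
          rw [cut_ge g x le_rfl] at this
          omega
        · rw [cut_ge g x h3.le]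
          omega

section

variable [Fintype Γ] [DecidableEq Γ]

/-- the number of occurrences of the letters in the prefix of length `l` -/
def psi (x : List Γ) (l : ℤ) : Γ → ℚ := fun a => (((x.take l.toNat).count a : ℕ) : ℚ)

/-- the difference of the lengths of the images as a linear functional -/
def lin (g h : Γ → List A) : (Γ → ℚ) →ₗ[ℚ] ℚ :=
  ∑ a, (((g a).length : ℚ) - ((h a).length : ℚ)) • LinearMap.proj a

theorem length_flatMap_eq (f : Γ → List A) (y : List Γ) :
    ((y.flatMap f).length : ℚ) = ∑ a, ((f a).length : ℚ) * ((y.count a : ℕ) : ℚ) := by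
  induction y with
  | nil => simp
  | cons b y ih =>
    rw [List.flatMap_cons, List.length_append]
    push_cast
    rw [ih]
    have : ∀ a, ((f a).length : ℚ) * (((b :: y).count a : ℕ) : ℚ)
        = ((f a).length : ℚ) * ((y.count a : ℕ) : ℚ) + (if a = b then ((f a).length : ℚ) else 0) := by
      intro a
      rw [List.count_cons]
      by_cases hab : a = b
      · subst hab
        simp
        ring
      · have : ¬ (b = a) := fun h => hab h.symm
        simp [this, hab]
    rw [Finset.sum_congr rfl (fun a _ => this a), Finset.sum_add_distrib]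
    simp [add_comm]

theorem lin_psi (g h : Γ → List A) (x : List Γ) (l : ℤ) : lin g h (psi x l) = dl g h x l := by
  have : (dl g h x l : ℚ) = (((x.take l.toNat).flatMap g).length : ℚ)
      - (((x.take l.toNat).flatMap h).length : ℚ) := by
    simp only [dl, cut]
    push_cast
    ring
  rw [this, length_flatMap_eq, length_flatMap_eq, ← Finset.sum_sub_distrib]
  simp only [lin, LinearMap.coe_sum, Finset.sum_apply, LinearMap.smul_apply, LinearMap.proj_apply,
    smul_eq_mul, psi]
  refine Finset.sum_congr rfl fun a _ => ?_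
  ring

/-- the types which occur with two different delays -/
def flex (q : ℕ) (g h : Γ → List A) (S : Set (List Γ)) : Set (Fin (6 * q + 1) → Option Γ) :=
  {τ | ∃ x ∈ S, ∃ y ∈ S, ∃ a b, ty q x a = τ ∧ ty q y b = τ ∧ dl g h x a ≠ dl g h y b}

def edges (q : ℕ) (S : Set (List Γ)) : Set (Fin (6 * q + 2) → Option Γ) :=
  {τ | ∃ x ∈ S, ∃ a, ed q x a = τ}

/-- differences of the positions of the rigid types -/
def spn (q : ℕ) (T : Set (Fin (6 * q + 1) → Option Γ)) (S : Set (List Γ)) : Submodule ℚ (Γ → ℚ) :=
  Submodule.span ℚ {v | ∃ x ∈ S, ∃ y ∈ S, ∃ a b, ty q x a = ty q y b ∧ ty q x a ∉ T ∧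
    v = psi x a - psi y b}

theorem spn_mono (q : ℕ) (T : Set (Fin (6 * q + 1) → Option Γ)) {S S' : Set (List Γ)} (h : S ⊆ S') :
    spn q T S ≤ spn q T S' := by
  apply Submodule.span_mono
  rintro v ⟨x, hx, y, hy, a, b, h1, h2, h3⟩
  exact ⟨x, h hx, y, h hy, a, b, h1, h2, h3⟩

theorem lin_spn (q : ℕ) (g h : Γ → List A) (S : Set (List Γ)) {v : Γ → ℚ}
    (hv : v ∈ spn q (flex q g h S) S) : lin g h v = 0 := by
  have : spn q (flex q g h S) S ≤ LinearMap.ker (lin g h) := by
    rw [spn, Submodule.span_le]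
    rintro v ⟨x, hx, y, hy, a, b, h1, h2, rfl⟩
    simp only [SetLike.mem_coe, LinearMap.mem_ker, map_sub, lin_psi]
    have h3 : dl g h x a = dl g h y b := by
      by_contra hne
      exact h2 ⟨x, hx, y, hy, a, b, rfl, h1.symm, hne⟩
    rw [h3]
    ring
  exact this hv

/-- two occurrences of the window without letters have the same delay -/
theorem dl_none {q : ℕ} {g h : Γ → List A} {x : List Γ} (hl : (x.flatMap g).length = (x.flatMap h).length)
    {a : ℤ} (hn : ty q x a = fun _ => none) : dl g h x a = 0 := by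
  have h1 : lt x a = none := by
    have := congrFun hn ⟨3 * q, by omega⟩
    simp only [ty] at this
    have e : a - 3 * (q : ℤ) + ((3 * q : ℕ) : ℤ) = a := by push_cast; ring
    rwa [e] at this
  rw [lt_none_iff] at h1
  simp only [dl]
  rcases h1 with h1 | h1
  · rw [cut_neg g x h1.le, cut_neg h x h1.le]
    ring
  · rw [cut_ge g x h1, cut_ge h x h1, hl]
    ring

theorem chain (Γ : Type) [Fintype Γ] [DecidableEq Γ] (q : ℕ) : ∃ K : ℕ, ∀ (A : Type) (t : ℕ)
    (x : ℕ → List Γ) (g h : ℕ → Γ → List A),
    (∀ i < t, ∀ j ≤ i, (x j).flatMap (g i) = (x j).flatMap (h i)) →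
    (∀ i < t, (x (i + 1)).flatMap (g i) ≠ (x (i + 1)).flatMap (h i)) →
    (∀ i < t, ((x (i + 1)).flatMap (g i)).length = ((x (i + 1)).flatMap (h i)).length →
      ∀ j ≤ i + 1, Delay q (g i) (h i) (x j)) → t ≤ K := by
  classical
  refine ⟨Fintype.card (Set (Fin (6 * q + 1) → Option Γ) × Set (Fin (6 * q + 2) → Option Γ) ×
    Fin (Fintype.card Γ + 1)), ?_⟩
  intro A t x g h hag hne hdel
  by_contra hK
  push Not at hK
  let S : ℕ → Set (List Γ) := fun i => {w | ∃ j ≤ i, w = x j}
  have hfr : ∀ D : Submodule ℚ (Γ → ℚ), Module.finrank ℚ D < Fintype.card Γ + 1 := by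
    intro D
    have := Submodule.finrank_le D
    rw [Module.finrank_fintype_fun_eq_card] at this
    omega
  let F : Fin t → Set (Fin (6 * q + 1) → Option Γ) × Set (Fin (6 * q + 2) → Option Γ) ×
      Fin (Fintype.card Γ + 1) := fun i =>
    (flex q (g i) (h i) (S i), edges q (S i),
      ⟨Module.finrank ℚ (spn q (flex q (g i) (h i) (S i)) (S i)), hfr _⟩)
  obtain ⟨i, i', hii, hF⟩ := Fintype.exists_ne_map_eq_of_card_lt F (by simpa using hK)
  wlog hlt : i < i' generalizing i i'
  · exact this i' i (Ne.symm hii) hF.symm (lt_of_le_of_ne (not_lt.1 hlt) (Ne.symm hii))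
  have hlt' : (i : ℕ) + 1 ≤ (i' : ℕ) := hlt
  simp only [F, Prod.mk.injEq, Fin.mk.injEq] at hF
  obtain ⟨hF1, hF2, hF3⟩ := hF
  have hSS : S i ⊆ S i' := by
    rintro w ⟨j, hj, rfl⟩
    exact ⟨j, by omega, rfl⟩
  have hz : x (i + 1) ∈ S i' := ⟨i + 1, hlt', rfl⟩
  rw [← hF1] at hF3
  have hD : spn q (flex q (g i) (h i) (S i)) (S i) = spn q (flex q (g i) (h i) (S i)) (S i') :=
    Submodule.eq_of_le_of_finrank_eq (spn_mono q _ hSS) hF3
  have hS : ∀ w ∈ S i, w.flatMap (g i) = w.flatMap (h i) := by
    rintro w ⟨j, hj, rfl⟩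
    exact hag i i.2 j hj
  have h0S : x 0 ∈ S i := ⟨0, by omega, rfl⟩
  -- rigid types have the right delay
  have hR : ∀ l, ty q (x (i + 1)) l ∉ flex q (g i) (h i) (S i) → ∀ w ∈ S i, ∀ a,
      ty q w a = ty q (x (i + 1)) l → dl (g i) (h i) (x (i + 1)) l = dl (g i) (h i) w a := by
    intro l hl w hw a hwa
    have h1 : psi (x (i + 1)) l - psi w a ∈ spn q (flex q (g i) (h i) (S i)) (S i') :=
      Submodule.subset_span ⟨x (i + 1), hz, w, hSS hw, l, a, hwa.symm, hl, rfl⟩
    rw [← hD] at h1
    have h2 := lin_spn q (g i) (h i) (S i) h1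
    rw [map_sub, lin_psi, lin_psi] at h2
    have h3 : ((dl (g i) (h i) (x (i + 1)) l : ℤ) : ℚ) = (dl (g i) (h i) w a : ℤ) := by linarith
    exact_mod_cast h3
  -- the lengths agree
  have hnone : ∀ (w : List Γ), ty q w (w.length + 3 * q + 1) = fun _ => none := by
    intro w
    funext m
    simp only [ty]
    exact lt_ge w (by omega)
  have hlen : ((x (i + 1)).flatMap (g i)).length = ((x (i + 1)).flatMap (h i)).length := by
    have h1 := hR ((x (i + 1)).length + 3 * q + 1) (by
      rw [hnone]
      rintro ⟨u, hu, v, hv, a, b, h1, h2, h3⟩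
      rw [dl_none (by rw [hS u hu]) h1, dl_none (by rw [hS v hv]) h2] at h3
      exact h3 rfl) (x 0) h0S ((x 0).length + 3 * q + 1) (by rw [hnone, hnone])
    rw [dl_none (by rw [hS _ h0S]) (hnone (x 0))] at h1
    simp only [dl] at h1
    rw [cut_ge _ _ (by omega), cut_ge _ _ (by omega)] at h1
    omega
  have hdel' := hdel i i.2 hlen
  apply hne i i.2
  refine local_thm q (g i) (h i) (S i) (x (i + 1)) hS ?_ ?_ ?_ ?_
  · rintro w ⟨j, hj, rfl⟩
    exact dc_of_delay (hdel' j (by omega)) (by rw [hag i i.2 j hj])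
  · exact dc_of_delay (hdel' (i + 1) le_rfl) hlen
  · intro l
    have h1 : ed q (x (i + 1)) l ∈ edges q (S i') := ⟨x (i + 1), hz, l, rfl⟩
    rw [← hF2] at h1
    exact h1
  · intro l
    by_cases hl : ty q (x (i + 1)) l ∈ flex q (g i) (h i) (S i)
    · left
      exact hl
    · right
      exact hR l hl

end

end Pool.H20D
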