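import Pool.Agent.H.h20D.Basic

/-!
The local theorem: if all windows of a new word occur in the previous words and the rigid ones occur with the
right delay, then the pair of morphisms agrees on the new word.
-/

set_option autoImplicit false

namespace Pool.H20D

variable {Γ A : Type}

/-- bounded delay in terms of cuts -/
def DC (q : ℕ) (g h : Γ → List A) (x : List Γ) : Prop :=
  ∀ l : ℤ, cut h x (l - q) ≤ cut g x l ∧ cut g x l ≤ cut h x (l + q)

/-- the delay -/
def dl (g h : Γ → List A) (x : List Γ) (l : ℤ) : ℤ := cut g x l - cut h x l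

/-- the window around a letter -/
def ty (q : ℕ) (x : List Γ) (l : ℤ) : Fin (6 * q + 1) → Option Γ := fun m => lt x (l - 3 * q + (m : ℕ))

/-- the window around two consecutive letters -/
def ed (q : ℕ) (x : List Γ) (l : ℤ) : Fin (6 * q + 2) → Option Γ := fun m => lt x (l - 3 * q + (m : ℕ))

theorem same_of_ty {q : ℕ} {x y : List Γ} {a b : ℤ} (h : ty q x a = ty q y b) :
    Same x a y b (-(3 * q)) (3 * q + 1) := by
  intro m h1 h2
  have h3 := congrFun h ⟨(m + 3 * q).toNat, by omega⟩
  simp only [ty] at h3
  have e1 : a - 3 * (q : ℤ) + (((m + 3 * (q : ℤ)).toNat : ℕ) : ℤ) = a + m := by omega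
  have e2 : b - 3 * (q : ℤ) + (((m + 3 * (q : ℤ)).toNat : ℕ) : ℤ) = b + m := by omega
  rwa [e1, e2] at h3

theorem same_of_ed {q : ℕ} {x y : List Γ} {a b : ℤ} (h : ed q x a = ed q y b) :
    Same x a y b (-(3 * q)) (3 * q + 2) := by
  intro m h1 h2
  have h3 := congrFun h ⟨(m + 3 * q).toNat, by omega⟩
  simp only [ed] at h3
  have e1 : a - 3 * (q : ℤ) + (((m + 3 * (q : ℤ)).toNat : ℕ) : ℤ) = a + m := by omega
  have e2 : b - 3 * (q : ℤ) + (((m + 3 * (q : ℤ)).toNat : ℕ) : ℤ) = b + m := by omega
  rwa [e1, e2] at h3

theorem ty_of_same {q : ℕ} {x y : List Γ} {a b : ℤ} (h : Same x a y b (-(3 * q)) (3 * q + 1)) :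
    ty q x a = ty q y b := by
  funext m
  have hm := m.2
  have h3 := h ((m : ℕ) - 3 * q) (by omega) (by omega)
  simp only [ty]
  have e1 : a + (((m : ℕ) : ℤ) - 3 * (q : ℤ)) = a - 3 * q + ((m : ℕ) : ℤ) := by ring
  have e2 : b + (((m : ℕ) : ℤ) - 3 * (q : ℤ)) = b - 3 * q + ((m : ℕ) : ℤ) := by ring
  rwa [e1, e2] at h3

theorem dl_shift {g h : Γ → List A} {x y : List Γ} {a b : ℤ} {lo hi : ℤ}
    (hs : Same x a y b lo hi) (h0 : lo ≤ 0) (h0' : 0 ≤ hi) {m : ℤ} (h1 : lo ≤ m) (h2 : m ≤ hi) :
    dl g h x (a + m) - dl g h y (b + m) = dl g h x a - dl g h y b := by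
  simp only [dl]
  have e1 := hs.cut g (m := lo) (m' := m) le_rfl h1 h2
  have e2 := hs.cut g (m := lo) (m' := 0) le_rfl h0 h0'
  have e3 := hs.cut h (m := lo) (m' := m) le_rfl h1 h2
  have e4 := hs.cut h (m := lo) (m' := 0) le_rfl h0 h0'
  simp only [add_zero] at e2 e4
  omega

/-- the difference of two delays of the same window is at most the image of every `2 q` letters of it -/
theorem dbound {q : ℕ} {g h : Γ → List A} {x y : List Γ} {a b lo hi : ℤ}
    (hs : Same x a y b lo hi) (h0 : lo ≤ 0) (h0' : 0 ≤ hi) (hx : DC q g h x) (hy : DC q g h y) (m : ℤ)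
    (h1 : lo ≤ m - q) (h2 : m + q ≤ hi) :
    |dl g h x a - dl g h y b| ≤ cut h x (a + (m + q)) - cut h x (a + (m - q)) := by
  have e0 := dl_shift (g := g) (h := h) hs h0 h0' (m := m) (by omega) (by omega)
  rw [← e0]
  have e1 := hs.cut h (m := m - q) (m' := m) h1 (by omega) (by omega)
  have e2 := hs.cut h (m := m) (m' := m + q) (by omega) (by omega) (by omega)
  have a1 := hx (a + m)
  have a2 := hy (b + m)
  have r1 : a + m - q = a + (m - q) := by ring
  have r2 : a + m + q = a + (m + q) := by ring
  have r3 : b + m - q = b + (m - q) := by ring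
  have r4 : b + m + q = b + (m + q) := by ring
  rw [r1, r2] at a1
  rw [r3, r4] at a2
  simp only [dl]
  rw [abs_le]
  constructor <;> omega

/-- the image of the middle of the window has period `d` -/
def PerAt (q : ℕ) (h : Γ → List A) (x : List Γ) (a d : ℤ) : Prop :=
  Per (im h x) (cut h x (a + -(2 * q))) (cut h x (a + (2 * q + 1))) d

theorem PerAt.transfer {q : ℕ} {h : Γ → List A} {x y : List Γ} {a b d : ℤ}
    (hs : Same x a y b (-(3 * q)) (3 * q + 1)) (hp : PerAt q h x a d) : PerAt q h y b d := by
  have e1 := hs.cut h (m := -(2 * q)) (m' := 0) (by omega) (by omega) (by omega)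
  have e2 := hs.cut h (m := 0) (m' := 2 * q + 1) (by omega) (by omega) (by omega)
  simp only [add_zero] at e1 e2
  have m1 := cut_mono h y (show b + -(3 * (q : ℤ)) ≤ b + -(2 * q) by omega)
  have m2 := cut_mono h y (show b + (2 * (q : ℤ) + 1) ≤ b + (3 * q + 1) by omega)
  intro K k1 k2 k3 k4
  have f1 := hs.symm.im h (by omega) (by omega) (K := K) (by omega) (by omega)
  have f2 := hs.symm.im h (by omega) (by omega) (K := K + d) (by omega) (by omega)
  rw [f1, f2, hp (K - cut h y b + cut h x a) (by omega) (by omega) (by omega) (by omega)]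
  congr 1
  ring

theorem im_congr {g h : Γ → List A} {x : List Γ} (hx : x.flatMap g = x.flatMap h) (K : ℤ) :
    im g x K = im h x K := by
  simp only [im, hx]

theorem per_pair {q : ℕ} {g h : Γ → List A} {x y : List Γ} {a b : ℤ}
    (hs : Same x a y b (-(3 * q)) (3 * q + 1)) (hx : DC q g h x)
    (ex : x.flatMap g = x.flatMap h) (ey : y.flatMap g = y.flatMap h) :
    PerAt q h x a (dl g h x a - dl g h y b) := by
  have key : PerAt q h x a (-(dl g h x a - dl g h y b)) := by
    intro K k1 k2 k3 k4
    have m1 := cut_mono h x (show a + -(3 * (q : ℤ)) ≤ a + -(2 * q) by omega)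
    have m2 := cut_mono h x (show a + (2 * (q : ℤ) + 1) ≤ a + (3 * q + 1) by omega)
    have b1 := (hx (a + -(3 * (q : ℤ)))).2
    have b2 := (hx (a + (3 * (q : ℤ) + 1))).1
    have r1 : a + -(3 * (q : ℤ)) + q = a + -(2 * q) := by ring
    have r2 : a + (3 * (q : ℤ) + 1) - q = a + (2 * q + 1) := by ring
    rw [r1] at b1
    rw [r2] at b2
    have f1 := hs.im g (by omega) (by omega) (K := K) (by omega) (by omega)
    have f2 := hs.im h (by omega) (by omega) (K := K + -(dl g h x a - dl g h y b)) (by omega) (by omega)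
    rw [f2, ← im_congr ex, f1, im_congr ey]
    congr 1
    simp only [dl]
    ring
  have k2 := Per.neg key
  rw [neg_neg] at k2
  exact k2

theorem len_ge {q : ℕ} {h : Γ → List A} {x : List Γ} {a d e : ℤ}
    (hd : |d| ≤ cut h x (a + (-q + q)) - cut h x (a + (-q - q)))
    (he : |e| ≤ cut h x (a + (q + q)) - cut h x (a + (q - q))) :
    |d| + |e| ≤ cut h x (a + (2 * q + 1)) - cut h x (a + -(2 * q)) := by
  have r1 : a + (-(q : ℤ) + q) = a := by ring
  have r2 : a + (-(q : ℤ) - q) = a + -(2 * q) := by ring
  have r3 : a + ((q : ℤ) - q) = a := by ring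
  have r4 : a + ((q : ℤ) + q) = a + 2 * q := by ring
  rw [r1, r2] at hd
  rw [r3, r4] at he
  have := cut_mono h x (show a + 2 * (q : ℤ) ≤ a + (2 * q + 1) by omega)
  omega

theorem local_thm (q : ℕ) (g h : Γ → List A) (S : Set (List Γ)) (z : List Γ)
    (hS : ∀ x ∈ S, x.flatMap g = x.flatMap h) (hD : ∀ x ∈ S, DC q g h x) (hz : DC q g h z)
    (hE : ∀ l, ∃ x ∈ S, ∃ a, ed q x a = ed q z l)
    (hT : ∀ l, (∃ x ∈ S, ∃ y ∈ S, ∃ a b, ty q x a = ty q z l ∧ ty q y b = ty q z l ∧
        dl g h x a ≠ dl g h y b) ∨
      (∀ x ∈ S, ∀ a, ty q x a = ty q z l → dl g h z l = dl g h x a)) :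
    z.flatMap g = z.flatMap h := by
  -- the invariant
  have inv : ∀ n : ℕ, ∀ x ∈ S, ∀ a, ty q x a = ty q z (-(3 * q + 1) + n) →
      PerAt q h x a (dl g h z (-(3 * q + 1) + n) - dl g h x a) := by
    intro n
    induction n with
    | zero =>
      intro x hx a hxa
      simp only [Nat.cast_zero, add_zero] at hxa ⊢
      have h1 : dl g h z (-(3 * q + 1)) = 0 := by
        simp only [dl]
        rw [cut_neg g z (by omega), cut_neg h z (by omega)]
        ring
      have h2 : dl g h x a = 0 := by
        have hs := same_of_ty hxa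
        have hn : ∀ m : ℤ, -(3 * (q : ℤ)) ≤ m → m < 3 * q + 1 → lt x (a + m) = none := by
          intro m m1 m2
          rw [hs m m1 m2]
          exact lt_neg z (by omega)
        rcases le_or_gt a 0 with ha | ha
        · simp only [dl]
          rw [cut_neg g x ha, cut_neg h x ha]
          ring
        · have h3 := hn 0 (by omega) (by omega)
          rw [lt_none_iff] at h3
          simp only [add_zero] at h3
          have h4 : (x.length : ℤ) ≤ a := by omega
          simp only [dl]
          rw [cut_ge g x h4, cut_ge h x h4, hS x hx]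
          ring
      rw [h1, h2]
      simpa [PerAt] using Per.zero _ _ _
    | succ n ih =>
      set l : ℤ := -(3 * q + 1) + n with hl
      have hl1 : -(3 * (q : ℤ) + 1) + ((n + 1 : ℕ) : ℤ) = l + 1 := by push_cast; ring
      rw [hl1]
      intro y hy b hyb
      rcases hT (l + 1) with ⟨x1, hx1, x2, hx2, a1, a2, t1, t2, hne⟩ | hR
      · obtain ⟨x, hx, a, hxa⟩ := hE l
        have hs := same_of_ed hxa
        have hs0 : Same x a z l (-(3 * q)) (3 * q + 1) := hs.mono (by omega) (by omega)
        have hs1 : Same x (a + 1) z (l + 1) (-(3 * q)) (3 * q + 1) :=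
          (hs.shift 1).mono (by omega) (by omega)
        have p0 := ih x hx a (ty_of_same hs0)
        -- the difference is the same at the next position
        have hdl : dl g h z (l + 1) - dl g h x (a + 1) = dl g h z l - dl g h x a :=
          dl_shift hs.symm (by omega) (by omega) (by omega) (by omega)
        -- nonzero period
        have p1 : PerAt q h x (a + 1) (dl g h x1 a1 - dl g h x2 a2) := by
          have s12 : Same x1 a1 x2 a2 (-(3 * q)) (3 * q + 1) := same_of_ty (t1.trans t2.symm)
          have := per_pair s12 (hD x1 hx1) (hS x1 hx1) (hS x2 hx2)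
          exact this.transfer (same_of_ty (t1.trans (ty_of_same hs1).symm))
        have bd1 : |dl g h x1 a1 - dl g h x2 a2|
            ≤ cut h x (a + 1 + 0) - cut h x (a + 1 + -(2 * q)) := by
          have s12 : Same x1 a1 x2 a2 (-(3 * q)) (3 * q + 1) := same_of_ty (t1.trans t2.symm)
          have := dbound (g := g) (h := h) s12 (by omega) (by omega) (hD x1 hx1) (hD x2 hx2) (-q)
            (by omega) (by omega)
          have e1 := (same_of_ty (t1.trans (ty_of_same hs1).symm)).cut h (m := -(2 * q)) (m' := 0)
            (by omega) (by omega) (by omega)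
          have r1 : a1 + (-(q : ℤ) + q) = a1 + 0 := by ring
          have r2 : a1 + (-(q : ℤ) - q) = a1 + -(2 * q) := by ring
          rw [r1, r2] at this
          omega
        have bd0 : |dl g h z l - dl g h x a| ≤ cut h x (a + (2 * q + 1)) - cut h x (a + 1) := by
          have := dbound (g := g) (h := h) hs (by omega) (by omega) (hD x hx) hz (q + 1) (by omega) (by omega)
          have r1 : a + ((q : ℤ) + 1 + q) = a + (2 * q + 1) := by ring
          have r2 : a + ((q : ℤ) + 1 - q) = a + 1 := by ring
          rw [r1, r2] at this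
          rwa [abs_sub_comm]
        have p2 : PerAt q h x (a + 1) (dl g h z l - dl g h x a) := by
          refine Per.extend p1 (sub_ne_zero.2 hne) (lo' := cut h x (a + 1 + -(2 * q)))
            (hi' := cut h x (a + (2 * q + 1))) ?_ le_rfl ?_ ?_
          · intro K k1 k2 k3 k4
            have m1 := cut_mono h x (show a + -(2 * (q : ℤ)) ≤ a + 1 + -(2 * q) by omega)
            exact p0 K (by omega) k2 (by omega) k4
          · exact cut_mono h x (by omega)
          · simp only [add_zero] at bd1
            omega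
        -- an arbitrary occurrence
        have sy : Same x (a + 1) y b (-(3 * q)) (3 * q + 1) :=
          same_of_ty ((ty_of_same hs1).trans hyb.symm)
        have p3 := per_pair sy (hD x hx) (hS x hx) (hS y hy)
        have p4 : PerAt q h x (a + 1) ((dl g h z l - dl g h x a) + (dl g h x (a + 1) - dl g h y b)) := by
          refine Per.add p2 p3 (len_ge ?_ ?_)
          · have := dbound (g := g) (h := h) hs1 (by omega) (by omega) (hD x hx) hz (-q) (by omega) (by omega)
            rw [abs_sub_comm, hdl] at this
            exact this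
          · exact dbound (g := g) (h := h) sy (by omega) (by omega) (hD x hx) (hD y hy) q (by omega) (by omega)
        have e : (dl g h z l - dl g h x a) + (dl g h x (a + 1) - dl g h y b)
            = dl g h z (l + 1) - dl g h y b := by rw [← hdl]; ring
        rw [e] at p4
        exact p4.transfer sy
      · rw [hR y hy b hyb]
        simpa [PerAt] using Per.zero _ _ _
  -- far to the left
  have inv2 : ∀ l : ℤ, ∀ x ∈ S, ∀ a, ty q x a = ty q z l → PerAt q h x a (dl g h z l - dl g h x a) := by
    intro l x hx a hxa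
    rcases le_or_gt (-(3 * (q : ℤ) + 1)) l with h1 | h1
    · obtain ⟨n, hn⟩ := Int.eq_ofNat_of_zero_le (show 0 ≤ l - -(3 * (q : ℤ) + 1) by omega)
      have h2 : l = -(3 * (q : ℤ) + 1) + n := by omega
      rw [h2] at hxa ⊢
      exact inv n x hx a hxa
    · have e1 : ty q z l = ty q z (-(3 * q + 1)) := by
        apply ty_of_same
        intro m m1 m2
        rw [lt_neg z (by omega), lt_neg z (by omega)]
      have e2 : dl g h z l = dl g h z (-(3 * q + 1)) := by
        simp only [dl]
        rw [cut_neg g z (by omega), cut_neg h z (by omega), cut_neg g z (by omega), cut_neg h z (by omega)]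
        ring
      have := inv 0 x hx a (by simpa using hxa.trans e1)
      simp only [Nat.cast_zero, add_zero] at this
      rwa [e2]
  -- the images agree
  have hK : ∀ K : ℤ, im g z K = im h z K := by
    intro K
    obtain ⟨l, -, -, hl1, hl2⟩ : ∃ l : ℤ, -|K| ≤ l ∧ l < z.length + |K| + 1 ∧ cut h z l ≤ K ∧
        K < cut h z (l + 1) := by
      have hK0 := abs_nonneg K
      refine cover' h z (by omega) ?_ ?_
      · rw [cut_neg h z (by omega)]
        exact neg_abs_le K
      · rw [cut_ge h z (by omega)]
        have := le_abs_self K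
        omega
    obtain ⟨x, hx, a, hxa⟩ := hE l
    have hs0 : Same x a z l (-(3 * q)) (3 * q + 1) := (same_of_ed hxa).mono (by omega) (by omega)
    have p := inv2 l x hx a (ty_of_same hs0)
    set e := dl g h z l - dl g h x a with he
    have b1 := dbound (g := g) (h := h) hs0 (by omega) (by omega) (hD x hx) hz (-q) (by omega) (by omega)
    have b2 := dbound (g := g) (h := h) hs0 (by omega) (by omega) (hD x hx) hz (q + 1) (by omega) (by omega)
    have r1 : a + (-(q : ℤ) + q) = a := by ring
    have r2 : a + (-(q : ℤ) - q) = a + -(2 * q) := by ring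
    have r3 : a + ((q : ℤ) + 1 + q) = a + (2 * q + 1) := by ring
    have r4 : a + ((q : ℤ) + 1 - q) = a + 1 := by ring
    rw [r1, r2, abs_sub_comm, ← he] at b1
    rw [r3, r4, abs_sub_comm, ← he] at b2
    have c1 := hs0.symm.cut h (m := 0) (m' := 1) (by omega) (by omega) (by omega)
    simp only [add_zero] at c1
    have b1' := abs_le.1 b1
    have b2' := abs_le.1 b2
    have g1 := (hz (l - q)).2
    have g2 := (hz (l + 1 + q)).1
    have r5 : l - (q : ℤ) + q = l := by ring
    have r6 : l + 1 + (q : ℤ) - q = l + 1 := by ring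
    rw [r5] at g1
    rw [r6] at g2
    have g3 := cut_mono g z (show l + -(3 * (q : ℤ)) ≤ l - q by omega)
    have g4 := cut_mono g z (show l + 1 + (q : ℤ) ≤ l + (3 * q + 1) by omega)
    have g5 := cut_mono h z (show l + -(3 * (q : ℤ)) ≤ l by omega)
    have g6 := cut_mono h z (show l + 1 ≤ l + (3 * (q : ℤ) + 1) by omega)
    have g7 := cut_mono h x (show a + -(2 * (q : ℤ)) ≤ a by omega)
    have g8 := cut_mono h x (show a + 1 ≤ a + (2 * (q : ℤ) + 1) by omega)
    have f1 := hs0.symm.im g (by omega) (by omega) (K := K) (by omega) (by omega)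
    have f2 := hs0.symm.im h (by omega) (by omega) (K := K) (by omega) (by omega)
    rw [f1, im_congr (hS x hx), f2]
    have e1 : K - cut g z l + cut g x a = (K - cut h z l + cut h x a) + -e := by
      simp only [he, dl]
      ring
    rw [e1]
    exact (p.neg (K - cut h z l + cut h x a) (by omega) (by omega) (by omega) (by omega)).symm
  apply List.ext_getElem?
  intro n
  have := hK n
  have h0 : ¬ ((n : ℤ) < 0) := by omega
  simp only [im, h0, if_false, Int.toNat_natCast] at this
  exact this

end Pool.H20D
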